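import Pool.Agent.H243R3.TP.Main
import Pool.Agent.H243R3.PCP.ApxMain

/-!
# Max-3DM under `L_p` is APX-hard, for every `p`

The proof has two parts.

1. *MAX-3SAT-B is APX-hard*, for a constant `B`.  This is a formalization of the PCP theorem, with
   extraction of certificates, by gap amplification: a constraint graph is made an expander of
   constant degree (explicit expanders of Margulis, Gabber and Galil), powered, and its alphabet is
   reduced by testing the long code; all constructions and decodings are carried out by
   polynomial-time programs.
2. *MAX-3SAT-B is AP-reducible to Max-3DM under `L_p`.*  From a formula in which every variable has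
   at most `B` occurrences a weighted graph is built, which is a union of (multiplied) matchings.
   For each occurrence there are four core vertices, which are arranged, for each variable, in a
   cycle with heavy edges, and tips adjacent to pairs of consecutive cores; the maximum triangle
   packings of such a cycle correspond to the two values of the variable.  The free tips can be
   joined to the pair of vertices of their clause.  The graph is embedded into `ℝ^s`: for finite
   `p`, every matching with its multiplicity is realized by the rows of a Hadamard matrix; for
   `p = ∞` the embedding of Fréchet is used.
-/

set_option autoImplicit false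

namespace Pool.Agent.Results.MP_311ff9_lc.APXHard

open Pool.Agent.H243R3.TP
open scoped ENNReal

/-- **Full answer to Q1.** For every `p ∈ [1, ∞]`, Max-3DM under `L_p` with the dimension part of the
input is APX-hard: every problem in APX is AP-reducible to it. -/
theorem result (p : ℝ≥0∞) [Fact (1 ≤ p)] : Pool.Agent.H243R3.TP.APXHard (max3DM p) :=
  fun P hP => Pool.Agent.NPC.TP.apReduces_trans (Pool.Agent.NPC.DP.apxHard_max3Sat P hP)
    (Pool.Agent.NPC.TP.max3Sat_reduces p Pool.Agent.H243R3.PCP.Bd)

end Pool.Agent.Results.MP_311ff9_lc.APXHard
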